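import Pool.Agent.N328.GL.Defs

/-!
# Contractions keep half flow pairs and cycle double covers by five even subgraphs
-/

set_option autoImplicit false
set_option linter.unusedSectionVars false

namespace Pool.Agent.N42.GL
open Finset Pool.Agent.H160R2.HF Pool.Agent.N328.LF Pool.Agent.N328.CD Pool.Agent.N328.GL

variable {V' E' V E : Type} [Fintype V] [Fintype E] [DecidableEq V] [DecidableEq E]
  [Fintype V'] [Fintype E'] [DecidableEq V'] [DecidableEq E']

/-- Summation over the fibres of `α`. -/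
lemma sum_fib {M : Type} [AddCommMonoid M] (s : E' → V') (α : V' → V) (u : V) (f : E' → M) :
    ∑ v' with α v' = u, ∑ e' with s e' = v', f e' = ∑ e' with α (s e') = u, f e' := by
  have h1 : ∀ x ∈ (univ : Finset E').filter (fun e' => α (s e') = u),
      s x ∈ (univ : Finset V').filter (fun v' => α v' = u) := by
    intro x hx
    rw [mem_filter] at hx ⊢
    exact ⟨mem_univ _, hx.2⟩
  rw [← Finset.sum_fiberwise_of_maps_to h1 f]
  refine Finset.sum_congr rfl fun v' hv' => ?_
  rw [mem_filter] at hv'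
  refine Finset.sum_congr ?_ fun _ _ => rfl
  ext x
  simp only [mem_filter, mem_univ, true_and]
  constructor
  · rintro rfl
    exact ⟨hv'.2, rfl⟩
  · exact fun h => h.2

/-- The edges inside and outside the range of `β`. -/
lemma sum_split {M : Type} [AddCommMonoid M] (s : E' → V') (s₀ : E → V) (α : V' → V)
    (β : E → E') (hβ : Function.Injective β) (hs : ∀ e, α (s (β e)) = s₀ e) (u : V)
    (f : E' → M) :
    ∑ e' with α (s e') = u, f e' = ∑ e with s₀ e = u, f (β e) +
      ∑ e' with (α (s e') = u ∧ ∀ e, β e ≠ e'), f e' := by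
  classical
  rw [← Finset.sum_filter_add_sum_filter_not _ (fun e' => ∃ e, β e = e')]
  congr 1
  · rw [← Finset.sum_image (f := f) (g := β) (fun x _ y _ h => hβ h)]
    refine Finset.sum_congr ?_ fun _ _ => rfl
    ext x
    simp only [mem_filter, mem_univ, true_and, mem_image]
    constructor
    · rintro ⟨h1, e, rfl⟩
      exact ⟨e, by rw [← hs, h1], rfl⟩
    · rintro ⟨e, h1, rfl⟩
      exact ⟨by rw [hs, h1], e, rfl⟩
  · refine Finset.sum_congr ?_ fun _ _ => rfl
    ext x
    simp only [mem_filter, mem_univ, true_and, not_exists, ne_eq]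

variable {G' : OrGraph V' E'} {G : OrGraph V E} {α : V' → V} {β : E → E'}

lemma rest_eq {M : Type} [AddCommMonoid M] (h : Contr G' G α β) (u : V) (f : E' → M) :
    ∑ e' with (α (G'.t e') = u ∧ ∀ e, β e ≠ e'), f e' =
      ∑ e' with (α (G'.h e') = u ∧ ∀ e, β e ≠ e'), f e' := by
  refine Finset.sum_congr ?_ fun _ _ => rfl
  ext x
  simp only [mem_filter, mem_univ, true_and]
  constructor
  · rintro ⟨h1, h2⟩
    exact ⟨by rw [← h.con x h2, h1], h2⟩
  · rintro ⟨h1, h2⟩
    exact ⟨by rw [h.con x h2, h1], h2⟩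

lemma flow (h : Contr G' G α β) {φ : E' → ℤ} (hφ : G'.IsFlow φ) : G.IsFlow (φ ∘ β) := by
  intro u
  have h1 : ∑ e' with α (G'.t e') = u, φ e' = ∑ e' with α (G'.h e') = u, φ e' := by
    rw [← sum_fib G'.t α u φ, ← sum_fib G'.h α u φ]
    exact Finset.sum_congr rfl fun v' _ => hφ v'
  rw [sum_split G'.t G.t α β h.inj h.tail u φ, sum_split G'.h G.h α β h.inj h.head u φ,
    rest_eq h u φ] at h1
  exact add_right_cancel h1

/-- GL/CTR, first part. -/
theorem ctr_half (G' : OrGraph V' E') (G : OrGraph V E) (α : V' → V) (β : E → E')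
    (h : Contr G' G α β) (φ₂ φ₄ : E' → ℤ) (hφ : G'.IsHalfFlowPair φ₂ φ₄) :
    G.IsHalfFlowPair (φ₂ ∘ β) (φ₄ ∘ β) :=
  ⟨⟨fun e => hφ.1.1 (β e), flow h hφ.1.2⟩, ⟨fun e => hφ.2.1.1 (β e), flow h hφ.2.1.2⟩,
    fun e he => hφ.2.2 (β e) he⟩

lemma deg_eq {V E : Type} [Fintype V] [Fintype E] [DecidableEq V] [DecidableEq E]
    (G : OrGraph V E) (F : Finset E) (v : V) : G.deg F v =
      ∑ e with G.t e = v, (if e ∈ F then 1 else 0) +
        ∑ e with G.h e = v, (if e ∈ F then 1 else 0) := by
  have h1 : ∀ s : E → V, (F.filter (fun e => s e = v)).card =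
      ∑ e with s e = v, (if e ∈ F then 1 else 0) := by
    intro s
    rw [Finset.card_eq_sum_ones, ← Finset.sum_filter]
    refine Finset.sum_congr ?_ fun _ _ => rfl
    ext x
    simp only [mem_filter, mem_univ, true_and]
    tauto
  rw [OrGraph.deg, h1, h1]

/-- GL/CTR, second part. -/
theorem ctr_cdc (G' : OrGraph V' E') (G : OrGraph V E) (α : V' → V) (β : E → E')
    (h : Contr G' G α β) (hC : FiveCDC G') : FiveCDC G := by
  obtain ⟨C, hC1, hC2⟩ := hC
  refine ⟨fun i => univ.filter fun e => β e ∈ C i, fun i u => ?_, fun e => ?_⟩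
  · have h1 : Even (∑ v' with α v' = u, G'.deg (C i) v') :=
      Finset.even_sum _ fun v' _ => hC1 i v'
    have h2 : ∑ v' with α v' = u, G'.deg (C i) v' =
        G.deg (univ.filter fun e => β e ∈ C i) u +
          2 * ∑ e' with (α (G'.h e') = u ∧ ∀ e, β e ≠ e'), (if e' ∈ C i then 1 else 0) := by
      have h3 : ∀ v', G'.deg (C i) v' = ∑ e with G'.t e = v', (if e ∈ C i then 1 else 0) +
        ∑ e with G'.h e = v', (if e ∈ C i then 1 else 0) := fun v' => deg_eq G' (C i) v'
      rw [Finset.sum_congr rfl fun v' _ => h3 v', Finset.sum_add_distrib,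
        sum_fib G'.t α u, sum_fib G'.h α u, sum_split G'.t G.t α β h.inj h.tail u,
        sum_split G'.h G.h α β h.inj h.head u, rest_eq h u, deg_eq]
      have h4 : ∀ s : E → V, ∑ e with s e = u,
          (if e ∈ univ.filter (fun e => β e ∈ C i) then 1 else 0) =
          ∑ e with s e = u, (if β e ∈ C i then 1 else 0) := by
        intro s
        refine Finset.sum_congr rfl fun e _ => ?_
        simp only [mem_filter, mem_univ, true_and]
      rw [h4, h4]
      ring
    rw [h2, Nat.even_add] at h1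
    exact h1.2 (even_two_mul _)
  · rw [← hC2 (β e)]
    congr 1
    ext i
    simp only [mem_filter, mem_univ, true_and]

end Pool.Agent.N42.GL
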